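import Pool.Agent.Helper66_D1.Stmts
import Pool.Agent.Helper46_PP.Blk

/-!
# Squad PP, part D1, module RSD: restriction to `N`
-/

open scoped BigOperators

noncomputable section

namespace Pool.Agent.PP.D1.H91

open Pool.Agent.Helper51_AWC Pool.Agent.Helper79_WRA Pool.Agent.PP

variable {F : Type} [Field F] {G : Type} [Group G]

theorem fsum_sub {M : Type*} [AddCommMonoid M] (N : Subgroup G) (f : G → M)
    (hf : ∀ x, x ∉ N → f x = 0) : ∑ᶠ g : G, f g = ∑ᶠ n : N, f n := by
  have h1 : ∑ᶠ n : (N : Set G), f n = ∑ᶠ g ∈ (N : Set G), f g :=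
    finsum_set_coe_eq_finsum_mem (N : Set G)
  have h2 : ∑ᶠ g ∈ (N : Set G), f g = ∑ᶠ g : G, f g := by
    rw [finsum_mem_def, Set.indicator_eq_self.2]
    intro x hx
    by_contra hn
    exact hx (hf x hn)
  exact (h1.trans h2).symm

theorem normalizer_subgroupOf {N P : Subgroup G} (h : P ≤ N) :
    (Subgroup.normalizer (P : Set G)).subgroupOf N =
      Subgroup.normalizer ((P.subgroupOf N : Subgroup N) : Set N) := by
  ext t
  rw [Subgroup.mem_subgroupOf, Subgroup.mem_normalizer_iff, Subgroup.mem_normalizer_iff]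
  constructor
  · intro ht x
    exact ht x
  · intro ht x
    constructor
    · intro hx
      exact (ht ⟨x, h hx⟩).1 hx
    · intro hx
      have hxN : x ∈ N := by
        have h1 := N.mul_mem (N.mul_mem (N.inv_mem t.2) (h hx)) t.2
        have h2 : (t : G)⁻¹ * ((t : G) * x * (t : G)⁻¹) * (t : G) = x := by group
        rwa [h2] at h1
      exact (ht ⟨x, hxN⟩).2 hx

theorem br_restr {N P : Subgroup G} (h : P ≤ N) (b : G → F) :
    br (P.subgroupOf N) (fun t : N => b t) = fun t : N => br P b t := by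
  funext t
  have hiff : t ∈ Subgroup.centralizer ((P.subgroupOf N : Subgroup N) : Set N) ↔
      (t : G) ∈ Subgroup.centralizer (P : Set G) := by
    rw [Subgroup.mem_centralizer_iff, Subgroup.mem_centralizer_iff]
    constructor
    · intro ht p hp
      exact congrArg Subtype.val (ht ⟨p, h hp⟩ hp)
    · intro ht p hp
      exact Subtype.ext (ht p hp)
  unfold br
  by_cases ht : (t : G) ∈ Subgroup.centralizer (P : Set G)
  · rw [if_pos ht, if_pos (hiff.2 ht)]
  · rw [if_neg ht, if_neg (fun h => ht (hiff.1 h))]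

theorem prjB_restr {N R P : Subgroup G} (hRN : R ≤ N) (hPR : P ≤ R) (a : G → F)
    (h : PrjB R P a) : PrjB (R.subgroupOf N) (P.subgroupOf N) (fun t : N => a t) := by
  obtain ⟨c, z, hc, hz, hzp, ha⟩ := h
  refine ⟨fun t => c t, fun t => z t, ⟨?_, ?_⟩, ?_, ?_, ?_⟩
  · intro g hg
    exact hc.supp g (fun h => hg (Subgroup.mem_subgroupOf.2 h))
  · intro g hg
    rw [← hc.sum g hg]
    refine finsum_eq_of_bijective (Subgroup.subgroupOfEquivOfLe (hPR.trans hRN))
      (Subgroup.subgroupOfEquivOfLe (hPR.trans hRN)).bijective ?_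
    intro p
    rfl
  · intro x hx
    exact hz x (fun h => hx (Subgroup.mem_subgroupOf.2 h))
  · intro p hp x
    exact hzp p hp x
  · intro y
    refine (ha y).trans ?_
    rw [fsum_sub N]
    · rfl
    · intro g hg
      rw [hc.supp g (fun h => hg (hRN h)), zero_mul]

/-- RSD -/
theorem rsd : RsdStmt := by
  intro ℓ hℓ F _ G _ _ N P b h
  have hn := normalizer_subgroupOf h.le
  refine ⟨⟨inferInstance, ?_, le_top, ?_, fun x hx => absurd (Subgroup.mem_top x) hx, ?_, ?_, ?_,
    ?_⟩, ?_⟩
  · rw [Nat.card_congr (Subgroup.subgroupOfEquivOfLe h.le).toEquiv]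
    exact h.card
  · refine ⟨fun x y => h.idem.1 x y, ?_⟩
    have h1 : ext0 N (mulF (fun t : N => b t) (fun t : N => b t)) = ext0 N (fun t : N => b t) := by
      rw [H46.ext0_mul, H46.ext0_restr h.supp]
      exact h.idem.2
    have h2 := congrArg (fun g : G → F => fun t : N => g t) h1
    rw [H46.restr_ext0, H46.restr_ext0] at h2
    exact h2
  · rw [top_sup_eq]
  · have h1 := prjB_restr (le_refl N) h.le b h.prj
    rwa [Subgroup.subgroupOf_self] at h1
  · have h1 := prjB_restr (N := N) (inf_le_left) (le_inf h.le Subgroup.le_normalizer) _ h.prj1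
    rw [br_restr h.le]
    have h2 : (N ⊓ Subgroup.normalizer (P : Set G)).subgroupOf N =
        (⊤ : Subgroup N) ⊓ Subgroup.normalizer ((P.subgroupOf N : Subgroup N) : Set N) := by
      rw [top_inf_eq, ← hn]
      ext t
      rw [Subgroup.mem_subgroupOf, Subgroup.mem_subgroupOf, Subgroup.mem_inf]
      exact ⟨fun h => h.2, fun h => ⟨t.2, h⟩⟩
    rwa [h2] at h1
  · intro k τ hτ hb ψ hsum
    refine h.npj k (τ.comp (Subgroup.topEquiv (G := N)).symm.toMonoidHom) ⟨hτ.1, ?_⟩ ?_ ψ ?_
    · rw [← hτ.2]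
      congr 1
      ext M
      constructor
      · rintro ⟨x, rfl⟩
        exact ⟨_, rfl⟩
      · rintro ⟨x, rfl⟩
        exact ⟨(x : N), rfl⟩
    · rw [← hb]
      unfold ev
      refine finsum_eq_of_bijective (Subgroup.topEquiv (G := N)).symm
        (Subgroup.topEquiv (G := N)).symm.bijective ?_
      intro x
      rfl
    · rw [← hsum]
      refine finsum_eq_of_bijective (Subgroup.topEquiv (G := N)).symm
        (Subgroup.topEquiv (G := N)).symm.bijective ?_
      intro x
      rfl
  · rw [← hn]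
    ext x
    rw [Subgroup.mem_subgroupOf]
    constructor
    · rintro ⟨a, rfl⟩
      exact (a : Subgroup.normalizer (P : Set G)).2
    · intro hx
      exact ⟨⟨⟨x, hx⟩, x.2⟩, rfl⟩

end Pool.Agent.PP.D1.H91
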