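import Pool.Agent.Helper66_D1.Stmts
import Pool.Agent.Helper71_D1.Soc
import Pool.Agent.Helper55_PP.Sur
import Pool.Agent.Helper91_D1.Rsd

/-!
# Squad PP, part D1, module FR1: the fixed points are not contained in the image of the norm
-/

open scoped BigOperators

noncomputable section

namespace Pool.Agent.PP.D1.H91

open Pool.Agent.Helper51_AWC Pool.Agent.Helper79_WRA Pool.Agent.PP

section gen

variable {F : Type} [Field F] {G : Type} [Group G] [Finite G] {V V' : Type} [AddCommGroup V]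
  [Module F V] [AddCommGroup V'] [Module F V']

theorem evV_apply [Fintype G] (ρ : Representation F G V) (a : G → F) (v : V) :
    evV ρ a v = ∑ g : G, a g • ρ g v := by
  unfold evV
  rw [finsum_eq_sum_of_fintype, LinearMap.sum_apply]
  rfl

theorem trP_app (ρ : Representation F G V) (ρ' : Representation F G V') (P : Subgroup G)
    [Fintype P] (φ : V →ₗ[F] V') (v : V) :
    trP ρ ρ' P φ v = ∑ p : P, ρ' p (φ (ρ (p : G)⁻¹ v)) := by
  unfold trP
  rw [finsum_eq_sum_of_fintype, LinearMap.sum_apply]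
  rfl

theorem trW_app [Fintype G] (c : G → F) (ρ : Representation F G V) (ρ' : Representation F G V')
    (φ : V →ₗ[F] V') (v : V) : trW c ρ ρ' φ v = ∑ g : G, c g • ρ' g (φ (ρ g⁻¹ v)) := by
  unfold trW
  rw [finsum_eq_sum_of_fintype, LinearMap.sum_apply]
  rfl

theorem nrm_le_fix (ρ : Representation F G V) (P : Subgroup G) : nrmV ρ P ≤ fixV ρ P := by
  classical
  have := Fintype.ofFinite P
  rintro _ ⟨v, rfl⟩ q hq
  rw [finsum_eq_sum_of_fintype, LinearMap.sum_apply, map_sum]
  refine Finset.sum_bijective (fun p : P => ⟨q, hq⟩ * p) (Group.mulLeft_bijective _) (by simp) ?_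
  intro p _
  rw [← Module.End.mul_apply, ← map_mul]
  rfl

/-- The value at a relative trace is the relative trace of the value. -/
theorem evV_prj (ρ : Representation F G V) (b c z : G → F)
    (h : ∀ y, b y = ∑ᶠ g : G, c g * z (g⁻¹ * y * g)) : evV ρ b = trW c ρ ρ (evV ρ z) := by
  classical
  have := Fintype.ofFinite G
  ext v
  rw [evV_apply, trW_app]
  have h1 : ∀ g : G, evV ρ z (ρ g⁻¹ v) = ∑ y : G, z (g⁻¹ * y * g) • ρ g⁻¹ (ρ y v) := by
    intro g
    rw [evV_apply]
    symm
    refine Finset.sum_bijective (fun y : G => g⁻¹ * y * g) ?_ (by simp) ?_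
    · constructor
      · intro a b hab
        exact mul_left_cancel (mul_right_cancel hab)
      · intro a
        exact ⟨g * a * g⁻¹, by group⟩
    · intro y _
      congr 1
      rw [← Module.End.mul_apply, ← map_mul, ← Module.End.mul_apply, ← map_mul]
      congr 2
      group
  have h2 : ∀ g : G, c g • ρ g (evV ρ z (ρ g⁻¹ v)) =
      ∑ y : G, (c g * z (g⁻¹ * y * g)) • ρ y v := by
    intro g
    rw [h1, map_sum, Finset.smul_sum]
    refine Finset.sum_congr rfl fun y _ => ?_
    rw [map_smul, smul_smul]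
    congr 1
    rw [← Module.End.mul_apply, ← map_mul, mul_inv_cancel, map_one]
    rfl
  rw [Finset.sum_congr rfl fun g _ => h2 g, Finset.sum_comm]
  refine Finset.sum_congr rfl fun y _ => ?_
  rw [h y, finsum_eq_sum_of_fintype, Finset.sum_smul]

theorem evV_comm (ρ : Representation F G V) (P : Subgroup G) (z : G → F)
    (h : ∀ p ∈ P, ∀ x, z (p * x * p⁻¹) = z x) : HomOn P ρ ρ (evV ρ z) := by
  classical
  have := Fintype.ofFinite G
  intro p hp v
  rw [evV_apply, evV_apply, map_sum]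
  symm
  refine Finset.sum_bijective (fun y : G => p * y * p⁻¹) ?_ (by simp) ?_
  · constructor
    · intro a b hab
      exact mul_left_cancel (mul_right_cancel hab)
    · intro a
      exact ⟨p⁻¹ * a * p, by group⟩
  · intro y _
    rw [h p hp, map_smul]
    congr 1
    rw [← Module.End.mul_apply, ← map_mul, ← Module.End.mul_apply, ← map_mul]
    congr 2
    group

theorem trP_comp (ρ : Representation F G V) (P : Subgroup G) (ζ φ : V →ₗ[F] V)
    (h : HomOn P ρ ρ ζ) : trP ρ ρ P (ζ ∘ₗ φ) = ζ ∘ₗ trP ρ ρ P φ := by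
  classical
  have := Fintype.ofFinite P
  ext v
  rw [LinearMap.comp_apply, trP_app, trP_app, map_sum]
  refine Finset.sum_congr rfl fun p _ => ?_
  rw [LinearMap.comp_apply, ← h p p.2]

/-- The restriction of a representation to a subspace stable under a subgroup. -/
def subRep (N : Subgroup G) (ρ : Representation F G V) (S : Submodule F V) (h : Stb N ρ S) :
    Representation F N S where
  toFun n := (ρ n).restrict (h n n.2)
  map_one' := by
    ext v
    change (ρ ((1 : N) : G)) v = v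
    rw [Subgroup.coe_one, map_one]
    rfl
  map_mul' a b := by
    ext v
    change (ρ ((a * b : N) : G)) v = ρ a (ρ b v)
    rw [Subgroup.coe_mul, map_mul]
    rfl

theorem subRep_coe (N : Subgroup G) (ρ : Representation F G V) (S : Submodule F V)
    (h : Stb N ρ S) (n : N) (v : S) : (subRep N ρ S h n v : V) = ρ n v := rfl

end gen

theorem mulVec_one_of {F : Type} [Field F] {k : ℕ} (A : Matrix (Fin k) (Fin k) F)
    (h : ∀ w, A.mulVec w = w) : A = 1 := by
  apply (Matrix.toLin' (R := F)).injective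
  rw [Matrix.toLin'_one]
  apply LinearMap.ext
  intro w
  rw [Matrix.toLin'_apply, h]
  rfl

/-- FR1 -/
theorem fr1 (hwgt : WgtStmt) (hfrc : FrcStmt) : Fr1Stmt := by
  intro ℓ hℓ F _ hF G _ _ N P b h n σ hσ hb
  classical
  have := hF.closed
  have := hF.char
  have := Fintype.ofFinite G
  have := Fintype.ofFinite N
  have := h.normal
  refine lt_of_le_of_ne (nrm_le_fix _ P) ?_
  intro heq
  have hle : fixV (mrep σ) P ≤ nrmV (mrep σ) P := heq.symm.le
  have hP : IsPGroup ℓ P := IsPGroup.of_card (n := 1) (by rw [h.card, pow_one])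
  have hcyc : IsCyclic P := isCyclic_of_prime_card h.card
  obtain ⟨φ, hφ⟩ := hfrc ℓ F hF.char G P hP hcyc (Fin n → F) (mrep σ) hle
  obtain ⟨c, z, hc, hz, hzp, hbz⟩ := h.prj
  obtain ⟨-, hw⟩ := hwgt F G N P h.le
  obtain ⟨-, hw2⟩ := hw (Fin n → F) (Fin n → F) (mrep σ) (mrep σ) c hc
  have hbv : ∀ v, evV (mrep σ) b v = v := by
    intro v
    rw [evV_apply]
    have h1 : (ev σ b).mulVec v = v := by rw [hb, Matrix.one_mulVec]
    rw [ev, finsum_eq_sum_of_fintype] at h1
    refine Eq.trans ?_ h1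
    have h2 : (∑ t : G, b t • σ t).mulVec v = Matrix.toLin' (∑ t : G, b t • σ t) v := rfl
    rw [h2, map_sum, LinearMap.sum_apply]
    refine Finset.sum_congr rfl fun g _ => ?_
    rw [map_smul]
    rfl
  have hcomm := evV_comm (mrep σ) P z hzp
  obtain ⟨ψ, hψ⟩ : ∃ ψ, ψ = evV (mrep σ) z ∘ₗ φ := ⟨_, rfl⟩
  have hid : ∀ v, ∑ m : N, mrep σ m (ψ (mrep σ (m : G)⁻¹ v)) = v := by
    intro v
    have h1 := hw2 ψ
    rw [hψ, trP_comp _ _ _ _ hcomm, hφ, LinearMap.comp_id, ← evV_prj (mrep σ) b c z hbz,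
      finsum_eq_sum_of_fintype] at h1
    have h2 := LinearMap.congr_fun h1 v
    rw [hbv v, LinearMap.sum_apply] at h2
    rw [hψ]
    exact h2.symm
  -- a minimal `N`-stable subspace
  have hn : 0 < n := hσ.1
  have hne : (⊤ : Submodule F (Fin n → F)) ≠ ⊥ := by
    have : Nonempty (Fin n) := ⟨⟨0, hn⟩⟩
    exact top_ne_bot
  obtain ⟨S, -, hS0, hS, hmin⟩ := H71.exists_min (N := N) (ρ := mrep σ) H71.stb_top hne
  obtain ⟨C, hC, hSC⟩ := H71.exists_compl (H71.nsoc_irr h.normal hσ) hS
  have hSn : Nontrivial S := Submodule.nontrivial_iff_ne_bot.2 hS0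
  obtain ⟨k, τ, e, hτ, he⟩ := H55.irr_of_simple (subRep N (mrep σ) S hS) (by
    intro W hW
    have h1 : Stb N (mrep σ) (W.map S.subtype) := by
      rintro m hm _ ⟨v, hv, rfl⟩
      exact ⟨subRep N (mrep σ) S hS ⟨m, hm⟩ v, hW _ v hv, rfl⟩
    rcases hmin _ h1 (Submodule.map_subtype_le S W) with h2 | h2
    · left
      rw [eq_bot_iff]
      intro x hx
      have h3 : (x : Fin n → F) ∈ W.map S.subtype := ⟨x, hx, rfl⟩
      rw [h2, Submodule.mem_bot] at h3
      exact (Submodule.mem_bot F).2 (Subtype.ext h3)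
    · right
      rw [eq_top_iff]
      intro v _
      have h3 : (v : Fin n → F) ∈ W.map S.subtype := by
        rw [h2]
        exact v.2
      obtain ⟨w, hw, hwv⟩ := h3
      have h4 : w = v := Subtype.ext hwv
      rwa [h4] at hw)
  -- the projection
  obtain ⟨q, hq⟩ : ∃ q : (Fin n → F) →ₗ[F] S, q = S.projectionOnto C hSC := ⟨_, rfl⟩
  have hqS : ∀ v : S, q v = v := by
    intro v
    rw [hq]
    exact Submodule.projectionOnto_apply_left hSC v
  have hqC : ∀ v ∈ C, q v = 0 := by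
    intro v hv
    rw [hq]
    exact Submodule.projectionOnto_apply_right hSC ⟨v, hv⟩
  have hqN : ∀ (m : N) (v : Fin n → F), q (mrep σ m v) = subRep N (mrep σ) S hS m (q v) := by
    intro m v
    have hv : v ∈ S ⊔ C := by
      rw [hSC.sup_eq_top]
      trivial
    obtain ⟨s, hs, t, ht, rfl⟩ := Submodule.mem_sup.1 hv
    rw [map_add, map_add, map_add, hqC t ht, hqC _ (hC m m.2 t ht), add_zero, add_zero,
      hqS ⟨s, hs⟩]
    exact hqS (subRep N (mrep σ) S hS m ⟨s, hs⟩)
  obtain ⟨Ψ, hΨ⟩ : ∃ Ψ : (Fin k → F) →ₗ[F] (Fin k → F),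
      Ψ = e.toLinearMap ∘ₗ q ∘ₗ ψ ∘ₗ S.subtype ∘ₗ e.symm.toLinearMap := ⟨_, rfl⟩
  refine h.npj k τ hτ ?_ (LinearMap.toMatrix' Ψ) ?_
  · apply mulVec_one_of
    intro w
    obtain ⟨v, rfl⟩ := e.surjective w
    rw [ev, finsum_eq_sum_of_fintype]
    have h2 : (∑ t : N, b t • τ t).mulVec (e v) = Matrix.toLin' (∑ t : N, b t • τ t) (e v) := rfl
    rw [h2, map_sum, LinearMap.sum_apply]
    have h3 : ∀ t : N, (Matrix.toLin' (b t • τ t)) (e v) =
        e (b t • subRep N (mrep σ) S hS t v) := by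
      intro t
      rw [map_smul, map_smul, he]
      rfl
    rw [Finset.sum_congr rfl fun t _ => h3 t, ← map_sum]
    congr 1
    apply Subtype.ext
    have h4 := hbv v
    rw [evV_apply] at h4
    rw [AddSubmonoidClass.coe_finsetSum]
    refine Eq.trans ?_ h4
    have h5 : ∑ᶠ g : G, b g • mrep σ g (v : Fin n → F) =
        ∑ᶠ t : N, b t • mrep σ t (v : Fin n → F) := by
      apply fsum_sub N
      intro x hx
      rw [h.supp x hx, zero_smul]
    rw [finsum_eq_sum_of_fintype, finsum_eq_sum_of_fintype] at h5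
    exact h5.symm
  · apply mulVec_one_of
    intro w
    obtain ⟨v, rfl⟩ := e.surjective w
    rw [finsum_eq_sum_of_fintype]
    have h2 : (∑ m : N, τ m * LinearMap.toMatrix' Ψ * τ m⁻¹).mulVec (e v) =
      Matrix.toLin' (∑ m : N, τ m * LinearMap.toMatrix' Ψ * τ m⁻¹) (e v) := rfl
    rw [h2, map_sum, LinearMap.sum_apply]
    have h3 : ∀ m : N, (Matrix.toLin' (τ m * LinearMap.toMatrix' Ψ * τ m⁻¹)) (e v) =
        e (q (mrep σ m (ψ (mrep σ (m : G)⁻¹ v)))) := by
      intro m
      have e1 : (τ m⁻¹).mulVec (e v) = e (subRep N (mrep σ) S hS m⁻¹ v) := (he m⁻¹ v).symm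
      have e2 : Ψ (e (subRep N (mrep σ) S hS m⁻¹ v)) = e (q (ψ (mrep σ (m : G)⁻¹ v))) := by
        rw [hΨ]
        change e (q (ψ ((e.symm (e (subRep N (mrep σ) S hS m⁻¹ v)) : S) : Fin n → F))) = _
        rw [LinearEquiv.symm_apply_apply]
        rfl
      rw [Matrix.toLin'_apply, ← Matrix.mulVec_mulVec, ← Matrix.mulVec_mulVec, e1,
        LinearMap.toMatrix'_mulVec, e2, hqN, he]
    rw [Finset.sum_congr rfl fun m _ => h3 m, ← map_sum, ← map_sum, hid, hqS]

end Pool.Agent.PP.D1.H91
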